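import Mathlib
import Pool.Agent.H890.Dvs5

/-!
MP_f72953_ag, Q1: adjoint bundles. Iitaka's conjecture for fibrations of manifolds implies (is
equivalent to) the subadditivity for the divisors `K_X + (1 / N) D` on manifolds `X`, `D` being a
smooth divisor which is divisible by `N ≥ 3` in the Picard group.
-/

set_option autoImplicit false

namespace Pool.Agent.Results.MP_f72953_ag.FermatBundles

open FF Pool.Agent.Y172 Pool.Agent.R887 Pool.Agent.H890

/-- (1) Let `X` be a projective manifold over `ℂ` of dimension `n ≥ 1` with function field `K` (`y`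
is its generic point, in homogeneous coordinates). Let `D` be a smooth divisor on `X` (it may be zero
or disconnected) which is linearly equivalent to `N Λ`, `Λ` being a divisor, `N = r + 2 ≥ 3`, the
divisor of the function `s` being `D - N Λ`. Let `X → Z` be a fibration onto a normal projective
variety `Z` (generic point `u`, function field `B`). Then there is a projective manifold `V` of
dimension `n + N - 2`, with generic point `v` and function field `M`, and a fibration `V → Z`, with the
following properties.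

* `M` is the function field of the Fermat hypersurface
  `z_0 ^ N + s z_1 ^ N + z_2 ^ N + … + z_{N-1} ^ N = 0` in `P ^ (N - 1)` over `K`.
* If Iitaka's inequality `κ (V) ≥ κ (V_Z) + κ (Z)` is true for `V → Z`, `V_Z` being the generic
  fibre, then the inequality `κ (K_X + (1 / N) D) ≥ κ ((K_X + (1 / N) D) | X_Z) + κ (Z)` is true for
  `X → Z`, `X_Z` being the generic fibre (`K_X + (1 / N) D` is `ℚ`-linearly equivalent to the adjoint
  divisor `K_X + Λ`).

(2) Hence Q1 (for fibrations `X → Z` of manifolds of all dimensions, `dim X ≥ 1`) is equivalent to the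
second inequality for all fibrations `X → Z` of manifolds and all `D, Λ, N` as in (1). -/
theorem result :
    (∀ (B K : Type) [Field B] [Algebra ℂ B] [Field K] [Algebra ℂ K] [Algebra B K]
      [IsScalarTower ℂ B K] (d n r N₀ N : ℕ) (u : Fin (N₀ + 1) → B) (y : Fin (N + 1) → K)
      (D Λ : Place ℂ K → ℤ) (s : K), Algebra.trdeg ℂ K = n → 1 ≤ n → 1 ≤ r →
      NormalModel u → NormalModel y → Fibration u y n → SmoothPair y n D →
      Divides y n (r + 2) D Λ s →
      ∃ (M : Type) (_ : Field M) (_ : Algebra ℂ M) (_ : Algebra B M) (_ : Algebra K M)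
        (_ : IsScalarTower ℂ B M) (_ : IsScalarTower ℂ K M) (_ : IsScalarTower B K M)
        (z : Fin (r + 2) → M) (N' : ℕ) (v : Fin (N' + 1) → M), FermatField K s r 1 z ∧
        Algebra.trdeg ℂ M = (n + r : ℕ) ∧ NormalModel v ∧ SmoothVariety v (n + r) ∧
        Fibration u v (n + r) ∧
        (IitakaInequality u d v (n + r) 0 →
          IitakaInequality u d y n fun P => (1 : ℚ) / (r + 2 : ℕ) * D P)) ∧
    ((∀ (B K : Type) [Field B] [Algebra ℂ B] [Field K] [Algebra ℂ K] [Algebra B K]
        [IsScalarTower ℂ B K] (d n N₀ N : ℕ) (u : Fin (N₀ + 1) → B) (y : Fin (N + 1) → K),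
        Algebra.trdeg ℂ B = d → Algebra.trdeg ℂ K = n → 1 ≤ n → NormalModel u →
        SmoothVariety u d → NormalModel y → SmoothVariety y n → Fibration u y n →
        IitakaInequality u d y n 0) ↔
      ∀ (B K : Type) [Field B] [Algebra ℂ B] [Field K] [Algebra ℂ K] [Algebra B K]
        [IsScalarTower ℂ B K] (d n r N₀ N : ℕ) (u : Fin (N₀ + 1) → B) (y : Fin (N + 1) → K)
        (D Λ : Place ℂ K → ℤ) (s : K), Algebra.trdeg ℂ B = d → Algebra.trdeg ℂ K = n → 1 ≤ n →
        1 ≤ r → NormalModel u → SmoothVariety u d → NormalModel y → Fibration u y n →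
        SmoothPair y n D → Divides y n (r + 2) D Λ s →
        IitakaInequality u d y n fun P => (1 : ℚ) / (r + 2 : ℕ) * D P) := by
  refine ⟨fun B K _ _ _ _ _ _ d n r N₀ N u y D Λ s hn hn1 hr hu hy hf hsm hD =>
    fermat_iitaka B K hr hn1 hn hu hf hy hD hsm, ⟨fun h => ?_, fun h => ?_⟩⟩
  · intro B K _ _ _ _ _ _ d n r N₀ N u y D Λ s hd hn hn1 hr hu husm hy hf hsm hD
    obtain ⟨M, _, _, _, _, _, _, _, z, N', v, -, h2, h3, h4, h5, h6⟩ :=
      fermat_iitaka B K (d := d) hr hn1 hn hu hf hy hD hsm
    exact h6 (h B M d _ N₀ N' u v hd h2 (by omega) hu husm h3 h4 h5)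
  · intro B K _ _ _ _ _ _ d n N₀ N u y hd hn hn1 hu husm hy hsm hf
    have h1 := h B K d n 1 N₀ N u y 0 0 1 hd hn hn1 le_rfl hu husm hy hf (smoothPair_zero hy hsm)
      (divides_zero y n 3)
    have h2 : (fun P : Place ℂ K => (1 : ℚ) / (1 + 2 : ℕ) *
        (((0 : Place ℂ K → ℤ) P : ℤ) : ℚ)) = 0 := by
      funext P
      simp
    rwa [h2] at h1

end Pool.Agent.Results.MP_f72953_ag.FermatBundles
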