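import Pool.Agent.H897.VH

/-!
MP_f72953_ag, Q1: the inequality of Iitaka for fibrations whose relative tangent sheaf is filtered by
distributions such that each graded piece is stable for some movable class and has a nonzero
tensor, or has an anti-effective determinant; in every dimension, also for log canonical pairs and
orbifold bases.

**The fibration.** `K` and `L` are the function fields of the total space `X`, of dimension `d + r`,
and of the base `B`, of dimension `d`, of a dominant rational map `X ⇢ B` of relative dimension
`r ≥ 1`. `NormalModel y` (`Pool/Agent/Y172/Defs.lean`): `y` is the generic point, in homogeneous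
coordinates, of `X`, a normal projective variety. `Boundary y Δ`: `Δ` is a `ℚ`-divisor on `X` with
coefficients between `0` and `1`. `LogCanonical y n Δ`: the pair `(X, Δ)` is log canonical.
`kodairaDim y n Δ`: the Kodaira dimension of `K_X + Δ`. (`X` smooth and `Δ = 0` is the case of the
question.)

`b Q` are multiplicities of the prime divisors `Q` over `B` (`b = 0` is the case of the question).
`PairKod ℂ L d b h` (`Pool/Agent/Y174/BDefs.lean`): the Kodaira dimension of `(B, b)` is at least
`h`: there are `h + 1` pluricanonical forms of some weight `s ≥ 1` on `B`, with poles of order at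
most `s b Q` along the prime divisors `Q` over `B`, with algebraically independent ratios.
`OrbMor L y Δ b` (`Pool/Agent/N133/TB/Rel.lean`): if the prime divisor `P` of `X` lies over `Q` with
multiplicity `e`, then `1 - Δ P ≤ e (1 - b Q)` (no condition if `b = 0`).

**Distributions** (`RF.lean`, `RG.lean`, `VE.lean`). A distribution on `X` is a `K`-subspace `F` of
the space of the rational vector fields `Derivation ℂ K K`; it is the generic fibre of a saturated
subsheaf of the orbifold tangent sheaf `T (X, Δ)` of Campana (the tangent sheaf, if `Δ = 0`).
`relTan L K` (`VG.lean`): the relative tangent sheaf, the vector fields which vanish on `L`.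
`WedgeOrd n δ P D e`: `e` is the order along `P` of `D 0 ∧ ⋯ ∧ D (s - 1)` as a rational section of
the exterior power of `T (X, Δ)`, `δ = Δ P`: the smallest order of the coefficients in a frame
`E i`, `i ≠ i0`, `x ^ δ • E i0` (`x` an equation of `P`, the `E i`, `i ≠ i0`, tangent to `P` if
`δ ≠ 0`).

`MovableClass y α`: `α` is a linear function on the divisors which is nonnegative on the prime
divisors and `0` on principal divisors. `HasDeg y α e s`: the divisor `∑ e P • P` has the degree
`s`. `SubDeg y n Δ α F d`: the degree of `F` is `d`. `StablePiece y n Δ α W V`: the sheaf `V / W`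
is `α`-stable, that is the slope of `F / W` is smaller than the slope of `V / W` for all
distributions `F` strictly between `W` and `V`.

**The pieces** (`VF.lean`). Let `W ⊂ V` be distributions and `m ≥ 1`.
* `PieceStable y n Δ m 0 W V`: for some movable class `α` the sheaf `V / W` is `α`-stable of
nonnegative degree, and there is a nonzero section `T` of `((V / W) ^ *) ^ ⊗ m`: an `m`-linear form
on `V` which vanishes if one of the arguments is in `W`, such that the order of `T D` along each
prime divisor is at least the sum of the orders of the vector fields `D s` as sections of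
`T (X, Δ)` (`SubTensorAt`).
* `PieceEff y n Δ m 0 W V`: the divisor class `- det (V / W)` is `ℚ`-effective.

**Theorem.** Let `0 = V 0 ⊂ V 1 ⊂ ⋯ ⊂ V k = T_{X/B}` be distributions such that each
`V (i + 1) / V i` has one of these two properties, with some `m i ≥ 1`; the movable classes for
different `i` may be different. Suppose that `(X, Δ)` is log canonical, that the fibration is a
morphism of orbifolds from `(X, Δ)` to `(B, b)` and `κ (B, b) ≥ h`. Then `κ (K_X + Δ) ≥ h`. So for
`Δ = 0`, `b = 0` we have `κ (X) ≥ κ (B)`, that is, the inequality of Iitaka if `κ (F) = 0` for the
general fibre `F`.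

**Proof.** For a piece with a tensor consider Kempf's optimal weighted flag of the generic fibre of
`V / W` for the tensor `T`. By the first order conditions the leading part of `T` times suitable
powers of the volume forms of the graded pieces of the flag is semistable (Ramanan-Ramanathan), so
it has a nonvanishing semi-invariant. The order of this rational function along each prime divisor
is estimated by means of an orthogonalisation of a basis adapted to the flag, and the product
formula for `α` contradicts the stability if the flag is not trivial. So `T` is semistable, and its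
invariants give an effective divisor in the class of a multiple of `- det (V / W)`. Together:
`- M det T_{X/B}` is effective for some `M ≥ 1`. The products of a section with pluricanonical forms
of `(B, b)` are sections of multiples of `K_X + Δ`.
-/

set_option autoImplicit false

open FF Pool.Agent.W602.GT Pool.Agent.Y172 Pool.Agent.NH31 Pool.Agent.H897 Pool.Agent.Y174
  Pool.Agent.N133.TB

namespace Pool.Agent.Results.MP_f72953_ag.StableRelativeTowers

/-- **The inequality of Iitaka for fibrations with towers of stable relative distributions.** -/
theorem result {L K : Type} [Field L] [Field K] [Algebra ℂ L] [Algebra ℂ K] [Algebra L K]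
    [IsScalarTower ℂ L K] {N d r : ℕ} {y : Fin (N + 1) → K} (hy : NormalModel y) (hr : 1 ≤ r)
    (hL : Algebra.trdeg ℂ L = d) (hn : Algebra.trdeg ℂ K = (d + r : ℕ)) {Δ : Place ℂ K → ℚ}
    (hΔ : Boundary y Δ) (hLC : LogCanonical y (d + r) Δ) {b : Place ℂ L → ℝ}
    (hb : OrbMor L y Δ b) {h : ℕ} (hB : PairKod ℂ L d b h) {k : ℕ}
    {V : ℕ → Submodule K (Derivation ℂ K K)} (hV0 : V 0 = ⊥) (hVk : V k = relTan L K)
    (hV : ∀ i, i < k → V i < V (i + 1)) {m : ℕ → ℕ} (hm : ∀ i, i < k → 1 ≤ m i)
    (hpiece : ∀ i, i < k → PieceStable y (d + r) Δ (m i) 0 (V i) (V (i + 1)) ∨
      PieceEff y (d + r) Δ (m i) 0 (V i) (V (i + 1))) :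
    ∃ e : ℕ, kodairaDim y (d + r) Δ = ((h + e : ℕ) : WithBot ℕ) :=
  tower_rel_main hy hr hL hn hΔ hLC hb hB hV0 hVk m hm fun i hi => by
    rcases hpiece i hi with h | h
    · exact h.eff hy hn hΔ (hm i hi) (hV i hi)
    · exact h

end Pool.Agent.Results.MP_f72953_ag.StableRelativeTowers
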